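import Pool.Agent.H19.BFL.Stmts2
import Pool.Agent.H33.KAL.RMG
import Pool.Agent.H68.KAL.RIN
import Pool.Agent.H77.KAL.RMN
import Pool.Agent.H36.KBX.TRM
import Pool.Agent.H99.KAL.GVI

/-!
# Remez inequality outside small events, several variables (row REN)
-/

set_option autoImplicit false

namespace Pool.Agent.H33.BFL

open Finset Real
open Pool.Agent.H49.Ent Pool.Agent.H32.Dense Pool.STK Pool.BFL

/-- A Lipschitz bound for polynomials of bounded degree. -/
lemma lip (n D : ℕ) : ∃ C : ℝ, 0 ≤ C ∧ ∀ (P : Pl n) (a y : Fin n → ℝ) (δ S : ℝ),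
    P.totalDegree ≤ D → 0 ≤ δ → δ ≤ 1 → (∀ i, |y i - a i| ≤ δ) →
    (∀ z : Fin n → ℝ, (∀ i, |z i - a i| ≤ 1) → |MvPolynomial.eval z P| ≤ S) →
    |MvPolynomial.eval y P - MvPolynomial.eval a P| ≤ C * S * δ := by
  obtain ⟨C, hC0, hC⟩ := Pool.KAL.TAY.coef_bound D
  refine ⟨(D + 1) * C, by positivity, ?_⟩
  intro P a y δ S hP hδ0 hδ1 hy hS
  have hS0 : 0 ≤ S := le_trans (abs_nonneg _) (hS a (by intro i; simp))
  obtain ⟨u, hu1, hu⟩ : ∃ u : Fin n → ℝ, (∀ i, |u i| ≤ 1) ∧ ∀ i, δ * u i = y i - a i := by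
    rcases eq_or_lt_of_le hδ0 with h0 | h0
    · refine ⟨fun _ => 0, by intro i; simp, fun i => ?_⟩
      have h1 := hy i
      rw [← h0] at h1
      have h2 : y i - a i = 0 := abs_eq_zero.1 (le_antisymm h1 (abs_nonneg _))
      rw [h2]
      ring
    · refine ⟨fun i => (y i - a i) / δ, fun i => ?_, fun i => ?_⟩
      · rw [abs_div, abs_of_pos h0, div_le_one h0]
        exact hy i
      · field_simp
  set R := Pool.Agent.H36.KBX.shift a P with hR
  set q := Pool.KAL.TAY.line R u with hq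
  have hqe : ∀ t : ℝ, q.eval t = MvPolynomial.eval (fun i => t * u i + a i) P := by
    intro t
    rw [hq, Pool.KAL.TAY.line_eval, hR, Pool.Agent.H36.KBX.eval_shift]
  have hqd : q.natDegree ≤ D :=
    Pool.KAL.TAY.line_natDegree R u ((Pool.Agent.H36.KBX.totalDegree_shift a P).trans hP)
  have hqb : ∀ t : ℝ, 0 ≤ t → t ≤ 1 → |q.eval t| ≤ S := by
    intro t h0 h1
    rw [hqe]
    refine hS _ fun i => ?_
    have h2 : t * u i + a i - a i = t * u i := by ring
    rw [h2, abs_mul, abs_of_nonneg h0]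
    exact mul_le_one₀ h1 (abs_nonneg _) (hu1 i)
  have hco := hC q S hqd hqb
  have h1 : MvPolynomial.eval y P - MvPolynomial.eval a P = q.eval δ - q.eval 0 := by
    rw [hqe, hqe]
    have e1 : (fun i => δ * u i + a i) = y := by
      funext i
      rw [hu i]
      ring
    have e2 : (fun i => 0 * u i + a i) = a := by
      funext i
      ring
    rw [e1, e2]
  rw [h1, Polynomial.eval_eq_sum_range' (Nat.lt_succ_of_le hqd),
    Polynomial.eval_eq_sum_range' (Nat.lt_succ_of_le hqd), ← Finset.sum_sub_distrib]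
  refine le_trans (Finset.abs_sum_le_sum_abs _ _) ?_
  have h2 : ∀ m ∈ range (D + 1), |q.coeff m * δ ^ m - q.coeff m * 0 ^ m| ≤ C * S * δ := by
    intro m hm
    have hm' : m ≤ D := by
      have := Finset.mem_range.1 hm
      omega
    rcases Nat.eq_zero_or_pos m with h0 | h0
    · subst h0
      simp only [pow_zero, mul_one, sub_self, abs_zero]
      positivity
    · rw [zero_pow (by omega), mul_zero, sub_zero, abs_mul, abs_of_nonneg (pow_nonneg hδ0 m)]
      refine mul_le_mul (hco m hm') ?_ (pow_nonneg hδ0 m) (by positivity)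
      calc δ ^ m ≤ δ ^ 1 := pow_le_pow_of_le_one hδ0 hδ1 h0
        _ = δ := pow_one _
  refine le_trans (Finset.sum_le_card_nsmul _ _ _ h2) ?_
  rw [Finset.card_range, nsmul_eq_mul]
  push_cast
  exact le_of_eq (by ring)

/-- Remez inequality for a large set of grid cells. -/
lemma disc (n D : ℕ) (C₀ : ℝ) (hC₀ : 1 ≤ C₀) : ∃ C : ℕ, 1 ≤ C ∧ ∀ (N : ℕ) (P : Pl n)
    (A : Finset (Fin n → Fin N)) (ρ S₀ : ℝ), 1 ≤ N → P.totalDegree ≤ D → 0 < ρ → ρ ≤ 1 →
    (C : ℝ) ≤ ρ ^ C * N → 0 < S₀ → ρ * (N : ℝ) ^ n ≤ (A.card : ℝ) →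
    (∀ x ∈ A, ∃ y : Fin n → ℝ, (∀ i, |y i - ((x i : ℕ) : ℝ) / N| ≤ C₀ / N) ∧
      |MvPolynomial.eval y P| ≤ S₀) →
    ∀ y : Fin n → ℝ, (∀ i, |y i| ≤ C₀) → |MvPolynomial.eval y P| ≤ C * (1 / ρ) ^ C * S₀ := by
  classical
  obtain ⟨Cl, hCl0, hCl⟩ := lip n D
  obtain ⟨Cc, hCc0, hCc⟩ := Pool.Agent.H36.KBX.coef_bound n D
  obtain ⟨Cr, hCr1, hCr⟩ := Pool.KAL.rmn_thm Pool.KAL.rmg_thm n D
  have hCr1' : (1 : ℝ) ≤ Cr := by exact_mod_cast hCr1
  set E : ℝ := ((Pool.Agent.H36.KBX.bx n D).card : ℝ) with hE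
  have hE0 : 0 ≤ E := by positivity
  set W : ℝ := E * 2 ^ (n * D) with hW
  have hW0 : 0 ≤ W := by positivity
  have hC0pos : 0 < C₀ := by linarith only [hC₀]
  set B : ℝ := 2 * Cc * Cr * Cl * W * C₀ + 2 * Cc * Cr * E * C₀ ^ (n * D) + C₀ + Cr + 1 with hB
  have hB1 : 1 ≤ B := by
    have h1 : 0 ≤ 2 * Cc * Cr * Cl * W * C₀ := by positivity
    have h2 : 0 ≤ 2 * Cc * Cr * E * C₀ ^ (n * D) := by positivity
    rw [hB]
    linarith only [hC₀, hCr1', h1, h2]
  obtain ⟨C, hC⟩ := exists_nat_ge B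
  have hC1 : 1 ≤ C := by
    have : (1 : ℝ) ≤ C := hB1.trans hC
    exact_mod_cast this
  have hCC : Cr ≤ C := by
    have h1 : 0 ≤ 2 * Cc * Cr * Cl * W * C₀ := by positivity
    have h2 : 0 ≤ 2 * Cc * Cr * E * C₀ ^ (n * D) := by positivity
    have : (Cr : ℝ) ≤ C := by
      refine le_trans ?_ hC
      rw [hB]
      linarith only [hC₀, h1, h2]
    exact_mod_cast this
  refine ⟨C, hC1, ?_⟩
  intro N P A ρ S₀ hN hP hρ0 hρ1 hρN hS₀ hA hAy y hy
  have hN0 : (0 : ℝ) < N := by exact_mod_cast hN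
  have hρC : ρ ^ C ≤ ρ ^ Cr := pow_le_pow_of_le_one hρ0.le hρ1 hCC
  have hρ1' : 1 ≤ 1 / ρ := by
    rw [le_div_iff₀ hρ0]
    linarith only [hρ1]
  -- the largest coefficient
  obtain ⟨κ, hκ0, hκ, hκa⟩ : ∃ κ : ℝ, 0 ≤ κ ∧ (∀ α, |MvPolynomial.coeff α P| ≤ κ) ∧
      (∃ α, κ ≤ |MvPolynomial.coeff α P|) := by
    by_cases h0 : P.support.Nonempty
    · obtain ⟨α, hα, hmax⟩ := Finset.exists_max_image P.support
        (fun α => |MvPolynomial.coeff α P|) h0
      refine ⟨|MvPolynomial.coeff α P|, abs_nonneg _, fun β => ?_, α, le_rfl⟩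
      by_cases hβ : β ∈ P.support
      · exact hmax β hβ
      · rw [MvPolynomial.notMem_support_iff.1 hβ, abs_zero]
        exact abs_nonneg _
    · rw [Finset.not_nonempty_iff_eq_empty] at h0
      refine ⟨0, le_rfl, fun β => ?_, 0, abs_nonneg _⟩
      rw [MvPolynomial.notMem_support_iff.1 (by rw [h0]; exact Finset.notMem_empty _), abs_zero]
  have hδ1 : C₀ / N ≤ 1 := by
    rw [div_le_one hN0]
    have h1 : ρ ^ C * N ≤ 1 * N := mul_le_mul_of_nonneg_right (pow_le_one₀ hρ0.le hρ1) hN0.le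
    have h2 : C₀ ≤ B := by
      have h1 : 0 ≤ 2 * Cc * Cr * Cl * W * C₀ := by positivity
      have h2 : 0 ≤ 2 * Cc * Cr * E * C₀ ^ (n * D) := by positivity
      rw [hB]
      linarith only [hCr1', h1, h2]
    linarith only [hC, hρN, h1, h2]
  -- values at the grid
  have hval : ∀ x ∈ A, |MvPolynomial.eval (fun i => ((x i : ℕ) : ℝ) / N) P| ≤
      S₀ + Cl * (W * κ) * (C₀ / N) := by
    intro x hx
    obtain ⟨z, hz, hzS⟩ := hAy x hx
    have h1 := hCl P (fun i => ((x i : ℕ) : ℝ) / N) z (C₀ / N) (W * κ) hP (by positivity) hδ1 hz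
      (by
        intro w hw
        have h2 := Pool.Agent.H36.KBX.eval_bound P hP κ 2 (by norm_num) hκ w (by
          intro i
          have h3 := abs_le.1 (hw i)
          have h4 : 0 ≤ ((x i : ℕ) : ℝ) / N := by positivity
          have h5 : ((x i : ℕ) : ℝ) / N ≤ 1 := by
            rw [div_le_one hN0]
            exact_mod_cast (x i).2.le
          rw [abs_le]
          constructor <;> linarith [h3.1, h3.2])
        refine h2.trans (le_of_eq ?_)
        rw [hW, hE]
        ring)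
    have h3 := abs_sub_abs_le_abs_sub (MvPolynomial.eval (fun i => ((x i : ℕ) : ℝ) / N) P)
      (MvPolynomial.eval z P)
    rw [abs_sub_comm] at h3
    linarith only [hzS, h1, h3]
  set M : ℝ := S₀ + Cl * (W * κ) * (C₀ / N) with hM
  have hM0 : 0 ≤ M := by
    rw [hM]
    positivity
  -- Remez on the grid
  have hbig : ∀ w : Fin n → ℝ, (∀ i, |w i| ≤ 1) → |MvPolynomial.eval w P| ≤
      Cr * (1 / ρ) ^ Cr * M := by
    have h1 := hCr N (Pool.KAL.RIN.scale P (1 / (N : ℝ))) ρ 1 M
      (fun i => ((Pool.KAL.RIN.degreeOf_scale P _ i).trans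
        (MvPolynomial.degreeOf_le_totalDegree P i)).trans hP) hρ0 hρ1
      (by
        have h2 : (Cr : ℝ) ≤ C := by exact_mod_cast hCC
        calc (Cr : ℝ) ≤ C := h2
          _ ≤ ρ ^ C * N := hρN
          _ ≤ ρ ^ Cr * N := mul_le_mul_of_nonneg_right hρC hN0.le) le_rfl hM0
      (by
        refine hA.trans ?_
        have h3 : A ⊆ univ.filter fun x : Fin n → Fin N =>
            |MvPolynomial.eval (fun i => ((x i : ℕ) : ℝ))
              (Pool.KAL.RIN.scale P (1 / (N : ℝ)))| ≤ M := by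
          intro x hx
          rw [Finset.mem_filter]
          refine ⟨Finset.mem_univ _, ?_⟩
          rw [Pool.KAL.RIN.eval_scale]
          have h4 : (fun i => 1 / (N : ℝ) * ((x i : ℕ) : ℝ)) =
              fun i => ((x i : ℕ) : ℝ) / N := by
            funext i
            ring
          rw [h4]
          exact hval x hx
        exact_mod_cast Finset.card_le_card h3)
    intro w hw
    have h5 := h1 (fun i => N * w i) (by
      intro i
      rw [one_mul, abs_mul, abs_of_pos hN0]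
      exact mul_le_of_le_one_right hN0.le (hw i))
    rw [Pool.KAL.RIN.eval_scale] at h5
    have h6 : (fun i => 1 / (N : ℝ) * (N * w i)) = w := by
      funext i
      field_simp
    rw [h6] at h5
    exact h5
  -- bound for the coefficients
  have hκM : κ ≤ Cc * (Cr * (1 / ρ) ^ Cr * M) := by
    obtain ⟨α, hα⟩ := hκa
    exact hα.trans (hCc P _ hP hbig α)
  have hcoef : Cc * (Cr * (1 / ρ) ^ Cr) * (Cl * W * (C₀ / N)) ≤ 1 / 2 := by
    have h1 : (1 / ρ) ^ Cr * (ρ ^ Cr) = 1 := by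
      rw [← mul_pow, one_div, inv_mul_cancel₀ hρ0.ne', one_pow]
    have h2 : 2 * Cc * Cr * Cl * W * C₀ ≤ ρ ^ Cr * N := by
      have h3 : 2 * Cc * Cr * Cl * W * C₀ ≤ B := by
        have h2 : 0 ≤ 2 * Cc * Cr * E * C₀ ^ (n * D) := by positivity
        rw [hB]
        linarith only [hC₀, hCr1', h2]
      calc 2 * Cc * Cr * Cl * W * C₀ ≤ B := h3
        _ ≤ C := hC
        _ ≤ ρ ^ C * N := hρN
        _ ≤ ρ ^ Cr * N := mul_le_mul_of_nonneg_right hρC hN0.le
    have h4 : 0 ≤ (1 / ρ) ^ Cr := by positivity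
    have h5 : Cc * (Cr * (1 / ρ) ^ Cr) * (Cl * W * (C₀ / N)) =
        (1 / ρ) ^ Cr * (2 * Cc * Cr * Cl * W * C₀) / (2 * N) := by
      field_simp
    rw [h5, div_le_iff₀ (by positivity)]
    calc (1 / ρ) ^ Cr * (2 * Cc * Cr * Cl * W * C₀) ≤ (1 / ρ) ^ Cr * (ρ ^ Cr * N) :=
          mul_le_mul_of_nonneg_left h2 h4
      _ = ((1 / ρ) ^ Cr * ρ ^ Cr) * N := by ring
      _ = 1 / 2 * (2 * N) := by rw [h1]; ring
  have hκ2 : κ ≤ 2 * Cc * Cr * (1 / ρ) ^ Cr * S₀ := by
    have h1 : Cc * (Cr * (1 / ρ) ^ Cr * M) = Cc * (Cr * (1 / ρ) ^ Cr) * S₀ +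
        Cc * (Cr * (1 / ρ) ^ Cr) * (Cl * W * (C₀ / N)) * κ := by
      rw [hM]
      ring
    have h2 : Cc * (Cr * (1 / ρ) ^ Cr) * (Cl * W * (C₀ / N)) * κ ≤ 1 / 2 * κ :=
      mul_le_mul_of_nonneg_right hcoef hκ0
    linarith only [hκM, h2]
  have hfin := Pool.Agent.H36.KBX.eval_bound P hP κ C₀ hC₀ hκ y hy
  refine hfin.trans ?_
  have h1 : (1 / ρ) ^ Cr ≤ (1 / ρ) ^ C := pow_le_pow_right₀ hρ1' hCC
  have h2 : 2 * Cc * Cr * E * C₀ ^ (n * D) ≤ C := by
    refine le_trans ?_ hC
    have h1 : 0 ≤ 2 * Cc * Cr * Cl * W * C₀ := by positivity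
    rw [hB]
    linarith only [hC₀, hCr1', h1]
  calc E * (κ * C₀ ^ (n * D)) ≤ E * ((2 * Cc * Cr * (1 / ρ) ^ Cr * S₀) * C₀ ^ (n * D)) :=
        mul_le_mul_of_nonneg_left (mul_le_mul_of_nonneg_right hκ2 (by positivity)) hE0
    _ = (2 * Cc * Cr * E * C₀ ^ (n * D)) * (1 / ρ) ^ Cr * S₀ := by ring
    _ ≤ C * (1 / ρ) ^ C * S₀ := by
        refine mul_le_mul_of_nonneg_right ?_ hS₀.le
        exact mul_le_mul h2 h1 (by positivity) (by positivity)

/-- A large part of the values, from the entropy. -/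
lemma card_lb {Ω T : Type} [Fintype Ω] [Fintype T] [DecidableEq T] {q : Ω → ℝ} (hq : IsLaw q)
    (Y : Ω → T) (G : Ω → Prop) [DecidablePred G] (A : Finset T) (hA : ∀ ω, G ω → Y ω ∈ A)
    (hG : 1 / 2 ≤ ∑ ω, if G ω then q ω else 0) :
    0 < A.card ∧ Real.log ((Fintype.card T : ℝ) / A.card) ≤
      2 * (Real.log (Fintype.card T) - H q Y + Real.log 2) := by
  have hne : 0 < A.card := by
    rw [Finset.card_pos]
    by_contra h
    rw [Finset.not_nonempty_iff_eq_empty] at h
    have h1 : ∑ ω, (if G ω then q ω else 0) = 0 := by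
      refine Finset.sum_eq_zero fun ω _ => ?_
      rw [if_neg]
      intro h2
      have h3 := hA ω h2
      rw [h] at h3
      exact absurd h3 (Finset.notMem_empty _)
    rw [h1] at hG
    norm_num at hG
  refine ⟨hne, ?_⟩
  have hA0 : (0 : ℝ) < A.card := by exact_mod_cast hne
  have hAT : (A.card : ℝ) ≤ Fintype.card T := by exact_mod_cast Finset.card_le_univ A
  have hT0 : (0 : ℝ) < Fintype.card T := lt_of_lt_of_le hA0 hAT
  set lam : ℝ := Real.log ((Fintype.card T : ℝ) / A.card) with hlam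
  have hlam0 : 0 ≤ lam := Real.log_nonneg (by rw [le_div_iff₀ hA0]; linarith only [hAT])
  have h1 := Pool.KAL.gvi_thm Ω T q Y univ (fun s => if s ∈ A then lam else 0) hq
    (fun ω => Finset.mem_univ _)
  have h2 : lam * (1 / 2) ≤ Ex q (fun ω => if Y ω ∈ A then lam else 0) := by
    refine (mul_le_mul_of_nonneg_left hG hlam0).trans ?_
    rw [Ex, Finset.mul_sum]
    refine Finset.sum_le_sum fun ω _ => ?_
    by_cases hg : G ω
    · rw [if_pos hg, if_pos (hA ω hg)]
      exact le_of_eq (mul_comm _ _)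
    · rw [if_neg hg, mul_zero]
      refine mul_nonneg (hq.nonneg ω) ?_
      split_ifs <;> linarith
  have h3 : (∑ s : T, Real.exp (if s ∈ A then lam else 0)) / (univ : Finset T).card ≤ 2 := by
    rw [div_le_iff₀ (by rw [Finset.card_univ]; exact hT0)]
    have h4 : ∀ s : T, Real.exp (if s ∈ A then lam else 0) ≤
        1 + (if s ∈ A then Real.exp lam else 0) := by
      intro s
      split_ifs
      · linarith only
      · rw [Real.exp_zero]
        linarith only
    refine (Finset.sum_le_sum fun s _ => h4 s).trans ?_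
    rw [Finset.sum_add_distrib, Finset.sum_const, Finset.sum_ite_mem, Finset.univ_inter,
      Finset.sum_const, nsmul_eq_mul, nsmul_eq_mul, hlam, Real.exp_log (by positivity),
      Finset.card_univ]
    have h5 : (A.card : ℝ) * ((Fintype.card T : ℝ) / A.card) = Fintype.card T := by
      field_simp
    rw [h5]
    linarith only
  have h6 : 0 < (∑ s : T, Real.exp (if s ∈ A then lam else 0)) / (univ : Finset T).card := by
    refine div_pos ?_ (by rw [Finset.card_univ]; exact hT0)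
    exact Finset.sum_pos (fun s _ => Real.exp_pos _) (by
      rw [← Finset.card_pos, Finset.card_univ]
      exact_mod_cast hT0)
  have h7 := Real.log_le_log h6 h3
  rw [Finset.card_univ] at h1 h7
  linarith only [h1, h2, h7]

lemma law_mul_cond {Ω Γ : Type} [Fintype Ω] {p : Ω → ℝ} (hp : ∀ ω, 0 ≤ p ω) (c : Ω → Γ)
    (z : Γ) (ω : Ω) (h : c ω = z) : law p c z * cond p c z ω = p ω := by
  rw [Pool.Agent.H49.Ent.cond, if_pos h]
  by_cases h0 : law p c z = 0
  · have h1 := le_law hp c ω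
    rw [h, h0] at h1
    rw [h0, zero_mul]
    exact (le_antisymm h1 (hp ω)).symm
  · field_simp

open Classical in
theorem ren_thm : RENStmt := by
  intro n D C₀ hC₀
  obtain ⟨C₁, hC₁1, hC₁⟩ := disc n D C₀ hC₀
  have hC₁r : (1 : ℝ) ≤ C₁ := by exact_mod_cast hC₁1
  refine ⟨11 * C₁, by linarith only [hC₁r], ?_⟩
  intro Ω Γ _ p L Y c P Gd S₀ θ η hp hY hP hθ hη0 hη1 hH hGd hS₀ hL hval
  set N : ℕ := 2 ^ L with hN
  have hN1 : 1 ≤ N := Nat.one_le_two_pow
  have hNr : (N : ℝ) = 2 ^ L := by rw [hN]; push_cast; rfl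
  set Y' : Ω → Fin n → Fin N := fun ω i => ⟨Y ω i, hY ω i⟩ with hY'
  have hcard : Real.log (Fintype.card (Fin n → Fin N)) = n * (L * Real.log 2) := by
    rw [Fintype.card_fun, Fintype.card_fin, Fintype.card_fin]
    push_cast
    rw [Real.log_pow, hNr, Real.log_pow]
  set τ : ℝ := (θ + 1) / η with hτ
  have hτ1 : 1 ≤ τ := by
    rw [hτ, le_div_iff₀ hη0]
    linarith only [hθ, hη1]
  set df : Γ → ℝ := fun z => n * (L * Real.log 2) - H (cond p c z) Y' with hdf
  set β : Γ → ℝ := fun z => ∑ ω, if ¬ Gd ω then cond p c z ω else 0 with hβ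
  have hlaw : ∀ ω, 0 < p ω → IsLaw (cond p c (c ω)) := by
    intro ω hω
    exact ⟨cond_nonneg hp.nonneg c _, sum_cond p c (law_pos hp.nonneg c hω).ne'⟩
  -- the two Markov inequalities
  have hm1 : Pb p (fun ω => 4 * τ < df (c ω)) ≤ η / 4 := by
    have h1 : ∑ ω, p ω * df (c ω) ≤ θ := by
      have e1 : CH p Y' c = ∑ ω, p ω * H (cond p c (c ω)) Y' := by
        rw [CH_eq_sum hp.nonneg, sum_mul_eq_sum_image p c (fun z => H (cond p c z) Y')]
      have e2 : CH p Y c ≤ CH p Y' c := by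
        rw [CH_eq_sum hp.nonneg, CH_eq_sum hp.nonneg]
        refine le_of_eq (Finset.sum_congr rfl fun z _ => ?_)
        congr 1
        have hinj : Function.Injective (fun (x : Fin n → Fin N) (i : Fin n) => ((x i : ℕ))) := by
          intro x x' h
          funext i
          exact Fin.ext (congrFun h i)
        exact H_comp_injective (cond_nonneg hp.nonneg c z) Y' hinj
      have e3 : ∑ ω, p ω * df (c ω) = n * (L * Real.log 2) - CH p Y' c := by
        rw [e1, hdf]
        simp only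
        have e4 : ∀ ω, p ω * (n * (L * Real.log 2) - H (cond p c (c ω)) Y') =
            p ω * (n * (L * Real.log 2)) - p ω * H (cond p c (c ω)) Y' := fun ω => by ring
        rw [Finset.sum_congr rfl fun ω _ => e4 ω, Finset.sum_sub_distrib, ← Finset.sum_mul,
          hp.sum_one, one_mul]
      rw [e3]
      linarith only [hH, e2]
    have h2 : Pb p (fun ω => 4 * τ < df (c ω)) * (4 * τ) ≤ ∑ ω, p ω * df (c ω) := by
      rw [Pb, Finset.sum_mul]
      refine Finset.sum_le_sum fun ω _ => ?_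
      by_cases h3 : p ω = 0
      · rw [h3]
        simp
      · have h4 : 0 < p ω := lt_of_le_of_ne (hp.nonneg ω) (Ne.symm h3)
        have h5 : 0 ≤ df (c ω) := by
          have h6 := H_le_log_card (hlaw ω h4).nonneg (hlaw ω h4).sum_one Y' univ
            (fun _ _ => Finset.mem_univ _)
          rw [Finset.card_univ, hcard] at h6
          rw [hdf]
          simp only
          linarith only [h6]
        split_ifs with h8
        · exact mul_le_mul_of_nonneg_left h8.le h4.le
        · rw [zero_mul]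
          exact mul_nonneg h4.le h5
    have h3 : Pb p (fun ω => 4 * τ < df (c ω)) * (4 * τ) ≤ θ := h2.trans h1
    have h4 : η * (4 * τ) / 4 = θ + 1 := by
      rw [hτ]
      field_simp
    by_contra hcon
    push Not at hcon
    have h5 : η / 4 * (4 * τ) < Pb p (fun ω => 4 * τ < df (c ω)) * (4 * τ) :=
      mul_lt_mul_of_pos_right hcon (by linarith only [hτ1])
    linarith only [h1, h2, h4, h5]
  have hm2 : Pb p (fun ω => 1 / 2 < β (c ω)) ≤ η / 2 := by
    have h1 : ∑ ω, p ω * β (c ω) = Pb p (fun ω => ¬ Gd ω) := by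
      rw [sum_mul_eq_sum_image p c β, Pb]
      have e1 : ∀ z ∈ univ.image c, law p c z * β z =
          ∑ ω, if c ω = z then (if ¬ Gd ω then p ω else 0) else 0 := by
        intro z _
        rw [hβ]
        simp only
        rw [Finset.mul_sum]
        refine Finset.sum_congr rfl fun ω _ => ?_
        by_cases h2 : c ω = z
        · rw [if_pos h2]
          by_cases h3 : ¬ Gd ω
          · rw [if_pos h3, if_pos h3, law_mul_cond hp.nonneg c z ω h2]
          · rw [if_neg h3, if_neg h3, mul_zero]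
        · rw [if_neg h2]
          have h4 : cond p c z ω = 0 := by rw [Pool.Agent.H49.Ent.cond, if_neg h2]
          rw [h4]
          simp
      rw [Finset.sum_congr rfl e1, Finset.sum_comm]
      refine Finset.sum_congr rfl fun ω _ => ?_
      rw [Finset.sum_ite_eq, if_pos (Finset.mem_image_of_mem _ (Finset.mem_univ _))]
      by_cases h9 : Gd ω <;> simp [h9]
    have h2 : Pb p (fun ω => 1 / 2 < β (c ω)) * (1 / 2) ≤ ∑ ω, p ω * β (c ω) := by
      rw [Pb, Finset.sum_mul]
      refine Finset.sum_le_sum fun ω _ => ?_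
      have h5 : 0 ≤ β (c ω) := by
        rw [hβ]
        simp only
        refine Finset.sum_nonneg fun v _ => ?_
        split_ifs
        · exact le_rfl
        · exact cond_nonneg hp.nonneg c _ v
      split_ifs with h8
      · exact mul_le_mul_of_nonneg_left h8.le (hp.nonneg ω)
      · rw [zero_mul]
        exact mul_nonneg (hp.nonneg ω) h5
    rw [h1] at h2
    linarith only [hGd, h2]
  -- the good samples
  have hgood : ∀ ω, 0 < p ω → ¬ 4 * τ < df (c ω) → ¬ 1 / 2 < β (c ω) →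
      ∀ y : Fin n → ℝ, (∀ i, |y i| ≤ C₀) →
        |MvPolynomial.eval y (P (c ω))| ≤ Real.exp (11 * C₁ * (θ + 1) / η) * S₀ (c ω) := by
    intro ω hω h1 h2
    push Not at h1 h2
    set q := cond p c (c ω) with hq
    have hql := hlaw ω hω
    set A : Finset (Fin n → Fin N) := (univ.filter fun v => Gd v ∧ c v = c ω).image Y' with hA
    have hG : 1 / 2 ≤ ∑ v, if Gd v ∧ c v = c ω then q v else 0 := by
      have h3 : (∑ v, if Gd v ∧ c v = c ω then q v else 0) + β (c ω) = 1 := by
        rw [hβ]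
        simp only
        rw [← Finset.sum_add_distrib, ← hql.sum_one]
        refine Finset.sum_congr rfl fun v _ => ?_
        by_cases h4 : c v = c ω
        · by_cases h5 : Gd v
          · simp [h4, h5, hq]
          · simp [h5]
        · have h6 : cond p c (c ω) v = 0 := by rw [Pool.Agent.H49.Ent.cond, if_neg h4]
          rw [hq, h6]
          simp
      linarith only [h2, h3]
    obtain ⟨hA0, hAl⟩ := card_lb hql Y' (fun v => Gd v ∧ c v = c ω) A (by
      intro v hv
      rw [hA]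
      exact Finset.mem_image_of_mem _ (Finset.mem_filter.2 ⟨Finset.mem_univ _, hv⟩)) hG
    have hA0r : (0 : ℝ) < A.card := by exact_mod_cast hA0
    have hT : (Fintype.card (Fin n → Fin N) : ℝ) = (N : ℝ) ^ n := by
      rw [Fintype.card_fun, Fintype.card_fin, Fintype.card_fin]
      push_cast
      rfl
    have hAT : (A.card : ℝ) ≤ (N : ℝ) ^ n := by
      rw [← hT]
      exact_mod_cast Finset.card_le_univ A
    have hNn : (0 : ℝ) < (N : ℝ) ^ n := lt_of_lt_of_le hA0r hAT
    set ρ : ℝ := A.card / (N : ℝ) ^ n with hρ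
    have hρ0 : 0 < ρ := div_pos hA0r hNn
    have hρ1 : ρ ≤ 1 := by
      rw [hρ, div_le_one hNn]
      exact hAT
    have hρi : 1 / ρ ≤ Real.exp (10 * τ) := by
      have h5 : 1 / ρ = (Fintype.card (Fin n → Fin N) : ℝ) / A.card := by
        rw [hρ, hT]
        field_simp
      rw [h5, ← Real.log_le_iff_le_exp (by rw [hT]; positivity)]
      refine hAl.trans ?_
      rw [hcard]
      have h6 : n * (L * Real.log 2) - H q Y' ≤ 4 * τ := h1
      have h7 : Real.log 2 ≤ 1 := by
        have := Real.log_two_lt_d9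
        linarith only [this]
      linarith only [hτ1, h1, h7]
    have hpow : (1 / ρ) ^ C₁ ≤ Real.exp (10 * C₁ * τ) := by
      calc (1 / ρ) ^ C₁ ≤ (Real.exp (10 * τ)) ^ C₁ :=
            pow_le_pow_left₀ (by positivity) hρi _
        _ = Real.exp (10 * C₁ * τ) := by
            rw [← Real.exp_nat_mul]
            congr 1
            ring
    have hC₁e : (C₁ : ℝ) ≤ Real.exp (C₁ * τ) := by
      have h8 := Real.add_one_le_exp ((C₁ : ℝ) * τ)
      have h9 : (C₁ : ℝ) ≤ C₁ * τ := le_mul_of_one_le_right (by linarith only [hC₁r]) hτ1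
      linarith only [h8, h9]
    have hprod : C₁ * (1 / ρ) ^ C₁ ≤ Real.exp (11 * C₁ * (θ + 1) / η) := by
      have h10 : Real.exp (11 * C₁ * (θ + 1) / η) =
          Real.exp (C₁ * τ) * Real.exp (10 * C₁ * τ) := by
        rw [← Real.exp_add]
        congr 1
        rw [hτ]
        ring
      rw [h10]
      exact mul_le_mul hC₁e hpow (by positivity) (Real.exp_pos _).le
    have hNexp : Real.exp (11 * C₁ * (θ + 1) / η) ≤ N := by
      rw [hNr, ← Real.le_log_iff_exp_le (by positivity), Real.log_pow]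
      exact hL
    have hcond : (C₁ : ℝ) ≤ ρ ^ C₁ * N := by
      have h11 : ρ ^ C₁ * (1 / ρ) ^ C₁ = 1 := by
        rw [← mul_pow, one_div, mul_inv_cancel₀ hρ0.ne', one_pow]
      calc (C₁ : ℝ) = ρ ^ C₁ * (C₁ * (1 / ρ) ^ C₁) := by
            rw [mul_left_comm, h11, mul_one]
        _ ≤ ρ ^ C₁ * N := mul_le_mul_of_nonneg_left (hprod.trans hNexp) (by positivity)
    intro y hy
    have hmain := hC₁ N (P (c ω)) A ρ (S₀ (c ω)) hN1 (hP _) hρ0 hρ1 hcond (hS₀ _)
      (by rw [hρ, div_mul_cancel₀ _ hNn.ne'])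
      (by
        intro x hx
        rw [hA, Finset.mem_image] at hx
        obtain ⟨v, hv, hvx⟩ := hx
        rw [Finset.mem_filter] at hv
        obtain ⟨z, hz, hzS⟩ := hval v hv.2.1
        rw [hv.2.2] at hzS
        refine ⟨z, fun i => ?_, hzS⟩
        have h12 := hz i
        rw [← hvx, hNr]
        exact h12) y hy
    refine hmain.trans ?_
    exact mul_le_mul_of_nonneg_right hprod (hS₀ _).le
  -- conclusion
  have hfin : Pb p (fun ω => ¬ ∀ y : Fin n → ℝ, (∀ i, |y i| ≤ C₀) →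
      |MvPolynomial.eval y (P (c ω))| ≤ Real.exp (11 * C₁ * (θ + 1) / η) * S₀ (c ω)) ≤
      Pb p (fun ω => 4 * τ < df (c ω)) + Pb p (fun ω => 1 / 2 < β (c ω)) := by
    rw [Pb, Pb, Pb, ← Finset.sum_add_distrib]
    refine Finset.sum_le_sum fun ω _ => ?_
    have h0 := hp.nonneg ω
    by_cases hω : p ω = 0
    · rw [hω]
      simp
    · have hω' : 0 < p ω := lt_of_le_of_ne h0 (Ne.symm hω)
      by_cases h1 : 4 * τ < df (c ω)
      · rw [if_pos h1]
        split_ifs <;> linarith
      · by_cases h2 : 1 / 2 < β (c ω)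
        · rw [if_pos h2]
          split_ifs <;> linarith
        · rw [if_neg (not_not.2 (hgood ω hω' h1 h2))]
          split_ifs <;> linarith only
  linarith only [hη0, hm1, hm2, hfin]

end Pool.Agent.H33.BFL
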